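import Pool.Agent.N838.CR.Stm

/-! Project CR (helper838), part B3: the perfect square inequality for chords (helper250). -/

set_option autoImplicit false

namespace Pool.Agent.N250.CR.B3

open Real N838.CR

variable {E : Type} [NormedAddCommGroup E] [InnerProductSpace ℂ E]

theorem re_exp (θ : ℝ) (z : ℂ) : (Complex.exp (-((θ : ℝ) : ℂ) * Complex.I) * z).re =
    Real.cos θ * z.re + Real.sin θ * z.im := by
  have h : -((θ : ℝ) : ℂ) * Complex.I = ((-θ : ℝ) : ℂ) * Complex.I := by push_cast; ring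
  rw [h, Complex.mul_re, Complex.exp_ofReal_mul_I_re, Complex.exp_ofReal_mul_I_im, Real.cos_neg,
    Real.sin_neg]
  ring

theorem F_val (T : E →L[ℂ] E) (a b : ℝ) (v : E) : F T a b v =
    (Real.cos ((b - a) / 2) * ‖v‖ ^ 2 - (Real.cos ((a + b) / 2) * (inner ℂ v (T v) : ℂ).re +
      Real.sin ((a + b) / 2) * (inner ℂ v (T v) : ℂ).im)) / Real.sin ((b - a) / 2) := by
  unfold N838.CR.F
  rw [re_exp]
  ring

theorem quad (c d c' d' : ℂ) (x y u w : E) : (inner ℂ (c • x - d • y) (c' • u - d' • w) : ℂ) =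
    (starRingEnd ℂ) c * c' * inner ℂ x u - (starRingEnd ℂ) c * d' * inner ℂ x w -
      (starRingEnd ℂ) d * c' * inner ℂ y u + (starRingEnd ℂ) d * d' * inner ℂ y w := by
  simp only [inner_sub_left, inner_sub_right, inner_smul_left, inner_smul_right]
  ring

theorem pos (T : E →L[ℂ] E) (hT : ‖T‖ ≤ 1) (v v' : E) :
    (inner ℂ v' (T v) : ℂ).re ≤ 1 / 2 * ‖v‖ ^ 2 + 1 / 2 * ‖v'‖ ^ 2 := by
  have h1 : (inner ℂ v' (T v) : ℂ).re ≤ ‖v'‖ * ‖T v‖ :=
    (Complex.re_le_norm _).trans (norm_inner_le_norm v' (T v))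
  have h2 : ‖T v‖ ≤ ‖v‖ := by
    have := T.le_opNorm v
    nlinarith [norm_nonneg v]
  have h3 : ‖v'‖ * ‖T v‖ ≤ ‖v'‖ * ‖v‖ := mul_le_mul_of_nonneg_left h2 (norm_nonneg _)
  nlinarith [sq_nonneg (‖v‖ - ‖v'‖)]

/-- the quadratic inequality with real coefficients -/
theorem main_pos (T : E →L[ℂ] E) (hT : ‖T‖ ≤ 1) (x y : E) (A B s t : ℝ) :
    0 ≤ s ^ 2 * (‖x‖ ^ 2 - (Real.cos (A + A) * (inner ℂ x (T x) : ℂ).re +
        Real.sin (A + A) * (inner ℂ x (T x) : ℂ).im)) +
      t ^ 2 * (‖y‖ ^ 2 - (Real.cos (B + B) * (inner ℂ y (T y) : ℂ).re +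
        Real.sin (B + B) * (inner ℂ y (T y) : ℂ).im)) -
      2 * s * t * Real.cos (B - A) * (inner ℂ x y : ℂ).re +
      s * t * (Real.cos (A + B) * ((inner ℂ x (T y) : ℂ).re + (inner ℂ y (T x) : ℂ).re) +
        Real.sin (A + B) * ((inner ℂ x (T y) : ℂ).im + (inner ℂ y (T x) : ℂ).im)) := by
  obtain ⟨c, hc⟩ : ∃ c : ℂ, c = ⟨s * Real.cos A, -(s * Real.sin A)⟩ := ⟨_, rfl⟩
  obtain ⟨d, hd⟩ : ∃ d : ℂ, d = ⟨t * Real.cos B, -(t * Real.sin B)⟩ := ⟨_, rfl⟩
  obtain ⟨c', hc'⟩ : ∃ c' : ℂ, c' = ⟨s * Real.cos A, s * Real.sin A⟩ := ⟨_, rfl⟩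
  obtain ⟨d', hd'⟩ : ∃ d' : ℂ, d' = ⟨t * Real.cos B, t * Real.sin B⟩ := ⟨_, rfl⟩
  have h := pos T hT (c • x - d • y) (c' • x - d' • y)
  have hx : (inner ℂ x x : ℂ) = ((‖x‖ ^ 2 : ℝ) : ℂ) := by
    rw [inner_self_eq_norm_sq_to_K]; push_cast; rfl
  have hy : (inner ℂ y y : ℂ) = ((‖y‖ ^ 2 : ℝ) : ℂ) := by
    rw [inner_self_eq_norm_sq_to_K]; push_cast; rfl
  have hyx : (inner ℂ y x : ℂ) = (starRingEnd ℂ) (inner ℂ x y) := (inner_conj_symm y x).symm
  have n1 : ‖c • x - d • y‖ ^ 2 = (inner ℂ (c • x - d • y) (c • x - d • y) : ℂ).re :=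
    (inner_self_eq_norm_sq (𝕜 := ℂ) _).symm
  have n2 : ‖c' • x - d' • y‖ ^ 2 = (inner ℂ (c' • x - d' • y) (c' • x - d' • y) : ℂ).re :=
    (inner_self_eq_norm_sq (𝕜 := ℂ) _).symm
  have hTv : T (c • x - d • y) = c • T x - d • T y := by
    rw [map_sub, map_smul, map_smul]
  rw [n1, n2, hTv, quad, quad, quad, hx, hy, hyx] at h
  generalize (inner ℂ x y : ℂ) = z at h ⊢
  generalize (inner ℂ x (T x) : ℂ) = g at h ⊢
  generalize (inner ℂ y (T y) : ℂ) = k at h ⊢
  generalize (inner ℂ x (T y) : ℂ) = l at h ⊢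
  generalize (inner ℂ y (T x) : ℂ) = m at h ⊢
  generalize ‖x‖ ^ 2 = nx at h ⊢
  generalize ‖y‖ ^ 2 = ny at h ⊢
  rw [hc, hd, hc', hd'] at h
  simp only [Complex.mul_re, Complex.mul_im, Complex.sub_re, Complex.add_re, Complex.conj_re,
    Complex.conj_im, Complex.ofReal_re, Complex.ofReal_im] at h
  rw [Real.cos_add, Real.sin_add, Real.cos_add, Real.sin_add, Real.cos_sub, Real.cos_add,
    Real.sin_add]
  have eA := Real.sin_sq_add_cos_sq A
  have eB := Real.sin_sq_add_cos_sq B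
  generalize Real.cos A = ca at h eA ⊢
  generalize Real.sin A = sa at h eA ⊢
  generalize Real.cos B = cb at h eB ⊢
  generalize Real.sin B = sb at h eB ⊢
  have e1 : nx = (sa ^ 2 + ca ^ 2) * nx := by rw [eA, one_mul]
  have e2 : ny = (sb ^ 2 + cb ^ 2) * ny := by rw [eB, one_mul]
  have e3 : s ^ 2 * nx = s ^ 2 * ((sa ^ 2 + ca ^ 2) * nx) := by rw [← e1]
  have e4 : t ^ 2 * ny = t ^ 2 * ((sb ^ 2 + cb ^ 2) * ny) := by rw [← e2]
  linarith

theorem t_B3 : B3 := by
  intro E _ _ T hT a m b ham hmb hba x y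
  obtain ⟨p, hp⟩ : ∃ p, p = (m - a) / 2 := ⟨_, rfl⟩
  obtain ⟨q, hq⟩ : ∃ q, q = (b - m) / 2 := ⟨_, rfl⟩
  have hpq : (b - a) / 2 = p + q := by rw [hp, hq]; ring
  have hp0 : 0 < p := by rw [hp]; linarith
  have hq0 : 0 < q := by rw [hq]; linarith
  have hpqπ : p + q < π := by rw [hp, hq]; linarith
  have sp : 0 < Real.sin p := Real.sin_pos_of_pos_of_lt_pi hp0 (by linarith)
  have sq : 0 < Real.sin q := Real.sin_pos_of_pos_of_lt_pi hq0 (by linarith)
  have spq : 0 < Real.sin (p + q) := Real.sin_pos_of_pos_of_lt_pi (by linarith) hpqπ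
  have E1 : Real.sin (p + q) * Real.cos p - Real.sin p * Real.cos (p + q) = Real.sin q := by
    have := Real.sin_sub (p + q) p
    rw [show p + q - p = q by ring] at this
    linarith
  have E4 : Real.sin (p + q) * Real.cos q - Real.sin q * Real.cos (p + q) = Real.sin p := by
    have := Real.sin_sub (p + q) q
    rw [show p + q - q = p by ring] at this
    linarith
  have am : (a + m) / 2 = a + p := by rw [hp]; ring
  have mb : (m + b) / 2 = b - q := by rw [hq]; ring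
  have ab1 : (a + b) / 2 = a + (p + q) := by rw [hp, hq]; ring
  have ab2 : (a + b) / 2 = b - (p + q) := by rw [hp, hq]; ring
  have E2 : Real.sin (p + q) * Real.cos ((a + m) / 2) - Real.sin p * Real.cos ((a + b) / 2) =
      Real.sin q * Real.cos a := by
    rw [am, ab1, Real.cos_add a p, Real.cos_add a (p + q)]
    linear_combination Real.cos a * E1
  have E3 : Real.sin (p + q) * Real.sin ((a + m) / 2) - Real.sin p * Real.sin ((a + b) / 2) =
      Real.sin q * Real.sin a := by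
    rw [am, ab1, Real.sin_add a p, Real.sin_add a (p + q)]
    linear_combination Real.sin a * E1
  have E5 : Real.sin (p + q) * Real.cos ((m + b) / 2) - Real.sin q * Real.cos ((a + b) / 2) =
      Real.sin p * Real.cos b := by
    rw [mb, ab2, Real.cos_sub b q, Real.cos_sub b (p + q)]
    linear_combination Real.cos b * E4
  have E6 : Real.sin (p + q) * Real.sin ((m + b) / 2) - Real.sin q * Real.sin ((a + b) / 2) =
      Real.sin p * Real.sin b := by
    rw [mb, ab2, Real.sin_sub b q, Real.sin_sub b (p + q)]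
    linear_combination Real.sin b * E4
  rw [F_val, F_val, F_val, hpq, ← hp, ← hq, div_add_div _ _ sp.ne' sq.ne',
    div_le_div_iff₀ spq (mul_pos sp sq)]
  have P := main_pos T hT x y (a / 2) (b / 2) (Real.sin q) (Real.sin p)
  rw [show a / 2 + a / 2 = a by ring, show b / 2 + b / 2 = b by ring,
    show b / 2 - a / 2 = p + q by rw [← hpq]; ring, show a / 2 + b / 2 = (a + b) / 2 by ring] at P
  have hn : ‖x + y‖ ^ 2 = ‖x‖ ^ 2 + 2 * (inner ℂ x y : ℂ).re + ‖y‖ ^ 2 := @norm_add_sq ℂ _ _ _ _ x y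
  have hi : (inner ℂ (x + y) (T (x + y)) : ℂ) = inner ℂ x (T x) + inner ℂ x (T y) +
      inner ℂ y (T x) + inner ℂ y (T y) := by
    rw [map_add, inner_add_left, inner_add_right, inner_add_right]
    ring
  rw [hn, hi]
  simp only [Complex.add_re, Complex.add_im]
  have key := P
  generalize Real.sin (p + q) = S at *
  generalize Real.cos (p + q) = C at *
  generalize Real.cos ((a + b) / 2) = cab at *
  generalize Real.sin ((a + b) / 2) = sab at *
  generalize Real.cos ((a + m) / 2) = cam at *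
  generalize Real.sin ((a + m) / 2) = sam at *
  generalize Real.cos ((m + b) / 2) = cmb at *
  generalize Real.sin ((m + b) / 2) = smb at *
  generalize Real.sin p = u at *
  generalize Real.sin q = w at *
  generalize Real.cos p = cp at *
  generalize Real.cos q = cq at *
  generalize (inner ℂ x y : ℂ).re = r at *
  generalize (inner ℂ x (T x) : ℂ).re = g1 at *
  generalize (inner ℂ x (T x) : ℂ).im = g2 at *
  generalize (inner ℂ y (T y) : ℂ).re = h1 at *
  generalize (inner ℂ y (T y) : ℂ).im = h2 at *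
  generalize ‖x‖ ^ 2 = nx at *
  generalize ‖y‖ ^ 2 = ny at *
  have fin : ((cp * nx - (cam * g1 + sam * g2)) * w + u * (cq * ny - (cmb * h1 + smb * h2))) * S -
      (C * (nx + 2 * r + ny) - (cab * (g1 + (inner ℂ x (T y) : ℂ).re + (inner ℂ y (T x) : ℂ).re + h1) +
        sab * (g2 + (inner ℂ x (T y) : ℂ).im + (inner ℂ y (T x) : ℂ).im + h2))) * (u * w) =
      w ^ 2 * (nx - (Real.cos a * g1 + Real.sin a * g2)) +
      u ^ 2 * (ny - (Real.cos b * h1 + Real.sin b * h2)) - 2 * w * u * C * r +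
      w * u * (cab * ((inner ℂ x (T y) : ℂ).re + (inner ℂ y (T x) : ℂ).re) +
        sab * ((inner ℂ x (T y) : ℂ).im + (inner ℂ y (T x) : ℂ).im)) := by
    linear_combination (w * nx) * E1 - (w * g1) * E2 - (w * g2) * E3 + (u * ny) * E4 -
      (u * h1) * E5 - (u * h2) * E6
  linarith

end Pool.Agent.N250.CR.B3
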